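import Mathlib
import Pool.Agent.TH767.B.Main

/-!
In ZFC every uncountable characterizable cardinal is homogeneously characterizable, so that no
cardinal other than `ℵ₀` is characterizable and not homogeneously characterizable.
-/

namespace Pool.Agent.Results.MP_032f6a_lc.ChHom

open Pool.Agent.TH767.B Cardinal

theorem result : ∀ κ : Cardinal.{0}, Ch κ → κ ≠ ℵ₀ → HomCh κ :=
  fun _ h hne => homCh_of_ch h hne

end Pool.Agent.Results.MP_032f6a_lc.ChHom
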